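import Pool.Agent.W927.BM.Stm

/-!
Matched walls: unenclosed cells and their colours.
-/

set_option autoImplicit false

namespace Pool.Agent.W227.BM

open Pool.Agent.W927.BM

section column

variable {s g : ℤ → ℤ}

theorem ds_eq (hg : ∀ y, g y = g (y - 1) + s y) {z b : ℤ} (h : z < b) :
    ds s z b = g (b - 1) - g z := by
  unfold ds
  induction b, (show z + 1 ≤ b from h) using Int.le_induction with
  | base =>
    have : Finset.Ioo z (z + 1) = ∅ := by
      ext y; simp only [Finset.mem_Ioo, Finset.notMem_empty, iff_false]; omega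
    rw [this, Finset.sum_empty]
    have : z + 1 - 1 = z := by omega
    rw [this, sub_self]
  | succ b hb ih =>
    have : Finset.Ioo z (b + 1) = insert b (Finset.Ioo z b) := by
      ext y; simp only [Finset.mem_Ioo, Finset.mem_insert]; omega
    rw [this, Finset.sum_insert (by simp), ih (by omega)]
    have h1 := hg b
    have : b + 1 - 1 = b := by omega
    rw [this]
    omega

theorem mt_iff (hg : ∀ y, g y = g (y - 1) + s y) {a b : ℤ} : Mt s a b ↔
    s a = 1 ∧ s b = -1 ∧ a < b ∧ g a = g (b - 1) ∧ ∀ z, a ≤ z → z < b → g a ≤ g z := by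
  unfold Mt Fl
  constructor
  · rintro ⟨h1, h2, h3, h4, h5⟩
    rw [ds_eq hg h3] at h4
    refine ⟨h1, h2, h3, by omega, fun z hz1 hz2 => ?_⟩
    have h6 := h5 z hz1 hz2
    rw [ds_eq hg hz2] at h6
    omega
  · rintro ⟨h1, h2, h3, h4, h5⟩
    refine ⟨h1, h2, h3, ?_, fun z hz1 hz2 => ?_⟩
    · rw [ds_eq hg h3]; omega
    · rw [ds_eq hg hz2]
      have := h5 z hz1 hz2
      omega

theorem exists_g (s : ℤ → ℤ) : ∃ g : ℤ → ℤ, ∀ y, g y = g (y - 1) + s y := by
  refine ⟨fun y => ∑ z ∈ Finset.Ioc 0 y, s z - ∑ z ∈ Finset.Ioc y 0, s z, fun y => ?_⟩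
  beta_reduce
  rcases lt_or_ge y 1 with h | h
  · have h1 : Finset.Ioc 0 y = ∅ := by
      ext z; simp only [Finset.mem_Ioc, Finset.notMem_empty, iff_false]; omega
    have h2 : Finset.Ioc 0 (y - 1) = ∅ := by
      ext z; simp only [Finset.mem_Ioc, Finset.notMem_empty, iff_false]; omega
    have h3 : Finset.Ioc (y - 1) 0 = insert y (Finset.Ioc y 0) := by
      ext z; simp only [Finset.mem_Ioc, Finset.mem_insert]; omega
    rw [h1, h2, h3, Finset.sum_insert (by simp)]
    omega
  · have h1 : Finset.Ioc y 0 = ∅ := by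
      ext z; simp only [Finset.mem_Ioc, Finset.notMem_empty, iff_false]; omega
    have h2 : Finset.Ioc (y - 1) 0 = ∅ := by
      ext z; simp only [Finset.mem_Ioc, Finset.notMem_empty, iff_false]; omega
    have h3 : Finset.Ioc 0 y = insert y (Finset.Ioc 0 (y - 1)) := by
      ext z; simp only [Finset.mem_Ioc, Finset.mem_insert]; omega
    rw [h1, h2, h3, Finset.sum_insert (by simp)]
    omega

theorem mt_lt {a b : ℤ} (h : Mt s a b) : a < b := h.2.2.1

theorem mt_nc {a b a' b' : ℤ} (h : Mt s a b) (h' : Mt s a' b') (h1 : a < a') (h2 : a' < b) :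
    b' < b := by
  obtain ⟨g, hg⟩ := exists_g s
  rw [mt_iff hg] at h h'
  obtain ⟨ha, hb, hab, hgab, hz⟩ := h
  obtain ⟨ha', hb', hab', hgab', hz'⟩ := h'
  by_contra h3
  have e1 := hg b
  have e2 := hg a'
  have e3 := hz (a' - 1) (by omega) (by omega)
  rcases lt_or_eq_of_le (not_lt.1 h3) with h4 | h4
  · have e4 := hz' b (by omega) h4
    omega
  · subst h4
    omega

theorem mt_uniq1 {a b b' : ℤ} (h : Mt s a b) (h' : Mt s a b') : b = b' := by
  obtain ⟨g, hg⟩ := exists_g s
  have key : ∀ {b b' : ℤ}, Mt s a b → Mt s a b' → ¬ b < b' := by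
    intro b b' h h' hlt
    rw [mt_iff hg] at h h'
    obtain ⟨ha, hb, hab, hgab, hz⟩ := h
    obtain ⟨ha', hb', hab', hgab', hz'⟩ := h'
    have e1 := hg b
    have e2 := hz' b (by omega) hlt
    omega
  have h1 := key h h'
  have h2 := key h' h
  omega

theorem mt_uniq2 {a a' b : ℤ} (h : Mt s a b) (h' : Mt s a' b) : a = a' := by
  have h1 : ¬ a < a' := fun hlt => absurd (mt_nc h h' hlt (mt_lt h')) (lt_irrefl _)
  have h2 : ¬ a' < a := fun hlt => absurd (mt_nc h' h hlt (mt_lt h)) (lt_irrefl _)
  omega

/-- the upper end of a maximal interval is not enclosed -/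
theorem exists_un (hfin : ∀ x, {ab : ℤ × ℤ | Mt s ab.1 ab.2 ∧ ab.1 ≤ x ∧ x < ab.2}.Finite) :
    ∃ x, Un s x := by
  by_cases h : Un s 0
  · exact ⟨0, h⟩
  · unfold Un at h
    rw [not_not] at h
    obtain ⟨a0, b0, h0⟩ := h
    obtain ⟨⟨a, b⟩, hab, hmax⟩ := Set.exists_max_image _ (fun ab : ℤ × ℤ => ab.2) (hfin 0)
      ⟨(a0, b0), h0⟩
    obtain ⟨hm, ha, hb⟩ := hab
    simp only at hm ha hb
    refine ⟨b, ?_⟩
    rintro ⟨a', b', hm', h1, h2⟩
    have hne : a' ≠ b := by
      rintro rfl
      have e1 := hm'.1
      have e2 := hm.2.1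
      omega
    rcases lt_trichotomy a a' with h3 | h3 | h3
    · have := mt_nc hm hm' h3 (by omega)
      omega
    · subst h3
      have := mt_uniq1 hm hm'
      omega
    · have := hmax (a', b') ⟨hm', by simp only; omega, by simp only; omega⟩
      simp only at this
      omega

end column

section types

variable (A : Lay)

/-- the value of a label -/
def cr : W3 → ℤ
  | .n => 0
  | .u => -1
  | .d => 1

theorem cr_n : cr W3.n = 0 := rfl
theorem cr_u : cr W3.u = -1 := rfl
theorem cr_d : cr W3.d = 1 := rfl

theorem ne_nu : W3.n ≠ W3.u := by decide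
theorem ne_nd : W3.n ≠ W3.d := by decide
theorem ne_ud : W3.u ≠ W3.d := by decide

variable {A}

theorem not_UD {t x : ℤ} (h1 : A.U t x) (h2 : A.D t x) : False := by
  obtain ⟨-, h1⟩ := h1
  obtain ⟨-, h2⟩ := h2
  rcases h1 with ⟨a, b⟩ | ⟨a, b⟩ <;> rcases h2 with ⟨c, d⟩ | ⟨c, d⟩ <;> rw [a] at c <;>
    rw [b] at d <;> first | (exact absurd c (by decide)) | (exact absurd d (by decide))

theorem sy_U {t x : ℤ} (h : A.U t x) : A.sy t x = -1 := by
  unfold Lay.sy; rw [if_pos h]

theorem sy_D {t x : ℤ} (h : A.D t x) : A.sy t x = 1 := by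
  unfold Lay.sy; rw [if_neg fun h1 => not_UD h1 h, if_pos h]

theorem U_of_sy {t x : ℤ} (h : A.sy t x = -1) : A.U t x := by
  unfold Lay.sy at h
  by_contra h1
  rw [if_neg h1] at h
  split_ifs at h
  all_goals omega

theorem D_of_sy {t x : ℤ} (h : A.sy t x = 1) : A.D t x := by
  unfold Lay.sy at h
  by_contra h1
  rw [if_neg h1] at h
  split_ifs at h
  all_goals omega

variable (hA : ∀ t x, A.N t x ∨ A.S t x ∨ A.M t x ∨ A.U t x ∨ A.D t x)

include hA

theorem out_eq (t x : ℤ) : A.sy t x = cr (A.e0 t x) + cr (A.e1 t x) := by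
  rcases hA t x with h | h | h | h | h
  · have h1 : ¬ A.U t x := by
      rintro ⟨-, ⟨a, b⟩ | ⟨a, b⟩⟩
      · rw [h.2.2.1] at a; exact absurd a (by decide)
      · rw [h.2.2.2] at b; exact absurd b (by decide)
    have h2 : ¬ A.D t x := by
      rintro ⟨-, ⟨a, b⟩ | ⟨a, b⟩⟩
      · rw [h.2.2.1] at a; exact absurd a (by decide)
      · rw [h.2.2.2] at b; exact absurd b (by decide)
    unfold Lay.sy
    rw [if_neg h1, if_neg h2, h.2.2.1, h.2.2.2]; rfl
  · have h1 : ¬ A.U t x := by
      rintro ⟨-, ⟨a, b⟩ | ⟨a, b⟩⟩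
      · rw [h.2.2.1] at a; exact absurd a (by decide)
      · rw [h.2.2.1] at a; exact absurd a (by decide)
    have h2 : ¬ A.D t x := by
      rintro ⟨-, ⟨a, b⟩ | ⟨a, b⟩⟩
      · rw [h.2.2.2] at b; exact absurd b (by decide)
      · rw [h.2.2.2] at b; exact absurd b (by decide)
    unfold Lay.sy
    rw [if_neg h1, if_neg h2, h.2.2.1, h.2.2.2]; rfl
  · have h1 : ¬ A.U t x := by
      rintro ⟨-, ⟨a, b⟩ | ⟨a, b⟩⟩
      · rw [h.2.2.1] at a; exact absurd a (by decide)
      · rw [h.2.2.2] at b; exact absurd b (by decide)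
    have h2 : ¬ A.D t x := by
      rintro ⟨-, ⟨a, b⟩ | ⟨a, b⟩⟩
      · rw [h.2.2.1] at a; exact absurd a (by decide)
      · rw [h.2.2.2] at b; exact absurd b (by decide)
    unfold Lay.sy
    rw [if_neg h1, if_neg h2, h.2.2.1, h.2.2.2]; rfl
  · rw [sy_U h]
    rcases h.2 with ⟨a, b⟩ | ⟨a, b⟩ <;> rw [a, b] <;> rfl
  · rw [sy_D h]
    rcases h.2 with ⟨a, b⟩ | ⟨a, b⟩ <;> rw [a, b] <;> rfl

theorem in_eq (t x : ℤ) : A.sy t x = cr (A.e0 (t - 1) x) + cr (A.e1 (t - 1) (x - 1)) := by
  rcases hA t x with h | h | h | h | h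
  · rw [out_eq hA, h.1, h.2.1, h.2.2.1, h.2.2.2]
  · rw [out_eq hA, h.1, h.2.1, h.2.2.1, h.2.2.2]; rfl
  · rw [out_eq hA, h.1, h.2.1, h.2.2.1, h.2.2.2]; rfl
  · rw [sy_U h]
    rcases h.1 with ⟨a, b⟩ | ⟨a, b⟩ <;> rw [a, b] <;> rfl
  · rw [sy_D h]
    rcases h.1 with ⟨a, b⟩ | ⟨a, b⟩ <;> rw [a, b] <;> rfl

/-- types from labels: outgoing 0-edge -/
theorem of_e0_u {t x : ℤ} (h : A.e0 t x = .u) : A.U t x := by
  rcases hA t x with k | k | k | k | k
  · rw [k.2.2.1] at h; exact absurd h (by decide)
  · rw [k.2.2.1] at h; exact absurd h (by decide)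
  · rw [k.2.2.1] at h; exact absurd h (by decide)
  · exact k
  · rcases k.2 with ⟨a, b⟩ | ⟨a, b⟩ <;> rw [a] at h <;> exact absurd h (by decide)

theorem of_e1_d {t x : ℤ} (h : A.e1 t x = .d) : A.D t x := by
  rcases hA t x with k | k | k | k | k
  · rw [k.2.2.2] at h; exact absurd h (by decide)
  · rw [k.2.2.2] at h; exact absurd h (by decide)
  · rw [k.2.2.2] at h; exact absurd h (by decide)
  · rcases k.2 with ⟨a, b⟩ | ⟨a, b⟩ <;> rw [b] at h <;> exact absurd h (by decide)
  · exact k

theorem of_e0_d {t x : ℤ} (h : A.e0 t x = .d) : A.D t x ∨ A.S t x := by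
  rcases hA t x with k | k | k | k | k
  · rw [k.2.2.1] at h; exact absurd h (by decide)
  · exact Or.inr k
  · rw [k.2.2.1] at h; exact absurd h (by decide)
  · rcases k.2 with ⟨a, b⟩ | ⟨a, b⟩ <;> rw [a] at h <;> exact absurd h (by decide)
  · exact Or.inl k

theorem of_e1_u {t x : ℤ} (h : A.e1 t x = .u) : A.U t x ∨ A.S t x := by
  rcases hA t x with k | k | k | k | k
  · rw [k.2.2.2] at h; exact absurd h (by decide)
  · exact Or.inr k
  · rw [k.2.2.2] at h; exact absurd h (by decide)
  · exact Or.inl k
  · rcases k.2 with ⟨a, b⟩ | ⟨a, b⟩ <;> rw [b] at h <;> exact absurd h (by decide)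

/-- a lower wall arriving on the 0-edge -/
theorem to_e0_d {t x : ℤ} (h : A.e0 t x = .d) : A.D (t + 1) x := by
  have e : t + 1 - 1 = t := by omega
  rcases hA (t + 1) x with k | k | k | k | k
  · have := k.1; rw [e, h] at this; exact absurd this (by decide)
  · have := k.1; rw [e, h] at this; exact absurd this (by decide)
  · have := k.1; rw [e, h] at this; exact absurd this (by decide)
  · rcases k.1 with ⟨a, b⟩ | ⟨a, b⟩ <;> rw [e, h] at a <;> exact absurd a (by decide)
  · exact k

/-- an upper wall arriving on the 1-edge -/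
theorem to_e1_u {t x : ℤ} (h : A.e1 t x = .u) : A.U (t + 1) (x + 1) := by
  have e : t + 1 - 1 = t := by omega
  have e' : x + 1 - 1 = x := by omega
  rcases hA (t + 1) (x + 1) with k | k | k | k | k
  · have := k.2.1; rw [e, e', h] at this; exact absurd this (by decide)
  · have := k.2.1; rw [e, e', h] at this; exact absurd this (by decide)
  · have := k.2.1; rw [e, e', h] at this; exact absurd this (by decide)
  · exact k
  · rcases k.1 with ⟨a, b⟩ | ⟨a, b⟩ <;> rw [e, e', h] at b <;> exact absurd b (by decide)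

/-- the two arriving edges cannot be walls unless the left one ends an island -/
theorem in_both {t x : ℤ} (h1 : A.e1 t x ≠ .n) (h0 : A.e0 t (x + 1) ≠ .n) : A.e1 t x = .d := by
  have e : t + 1 - 1 = t := by omega
  have e' : x + 1 - 1 = x := by omega
  rcases hA (t + 1) (x + 1) with k | k | k | k | k
  · have := k.1; rw [e] at this; exact absurd this h0
  · have := k.1; rw [e] at this; exact absurd this h0
  · have := k.2.1; rw [e, e'] at this; exact this
  · rcases k.1 with ⟨a, b⟩ | ⟨a, b⟩
    · rw [e, e'] at b; exact absurd b h1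
    · rw [e] at a; exact absurd a h0
  · rcases k.1 with ⟨a, b⟩ | ⟨a, b⟩
    · rw [e, e'] at b; exact absurd b h1
    · rw [e] at a; exact absurd a h0

end types

theorem bool_eq_of_ne {a b c : Bool} (h1 : a ≠ b) (h2 : a ≠ c) : b = c := by
  cases a <;> cases b <;> cases c <;> simp_all

theorem main : S_DET2 := by
  intro A c hA hc hU hD hfin
  have hUn : ∀ t, ∃ x, Un (A.sy t) x := fun t => exists_un (hfin t)
  -- enclosed
  have hen : ∀ {t x a b : ℤ}, Un (A.sy t) x → Mt (A.sy t) a b → a ≤ x → x < b → False :=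
    fun hx hm h1 h2 => hx ⟨_, _, hm, h1, h2⟩
  -- zero symbols
  have h00 : ∀ {t x : ℤ}, A.N t x ∨ A.S t x ∨ A.M t x → A.sy t x = 0 := by
    intro t x h
    rw [out_eq hA]
    rcases h with h | h | h <;> rw [h.2.2.1, h.2.2.2] <;> rfl
  -- part (ii)
  have hsame : ∀ (n : ℕ) (t x y : ℤ), x ≤ y → (y - x).toNat ≤ n → Un (A.sy t) x →
      Un (A.sy t) y → c t x = c t y := by
    intro n
    induction n with
    | zero =>
      intro t x y hxy hn _ _
      have : x = y := by omega
      rw [this]
    | succ n ih =>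
      intro t x y hxy hn hx hy
      rcases eq_or_lt_of_le hxy with rfl | hlt
      · rfl
      have hrest : A.N t (x + 1) ∨ A.S t (x + 1) ∨ A.M t (x + 1) → c t x = c t (x + 1) →
          c t x = c t y := by
        intro hty hcol
        rw [hcol]
        refine ih t (x + 1) y (by omega) (by omega) ?_ hy
        rintro ⟨a, b, hm, h1, h2⟩
        rcases eq_or_lt_of_le h1 with h3 | h3
        · have h4 := hm.1
          rw [h3, h00 hty] at h4
          omega
        · exact hen hx hm (by omega) (by omega)
      rcases hA t (x + 1) with k | k | k | k | k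
      · refine hrest (Or.inl k) ?_
        have h1 := (hc t (x + 1)).1 k.2.2.1
        have h2 := (hc t (x + 1)).2 k.2.2.2
        have e : x + 1 - 1 = x := by omega
        rw [e] at h1
        exact bool_eq_of_ne h1 h2
      · refine hrest (Or.inr (Or.inl k)) ?_
        have h1 := (hc (t - 1) (x + 1)).1 k.1
        have h2 := (hc (t - 1) (x + 1 - 1)).2 k.2.1
        have e : x + 1 - 1 = x := by omega
        have e' : t - 1 + 1 = t := by omega
        rw [e, e'] at h1 h2
        exact bool_eq_of_ne h2.symm h1.symm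
      · refine hrest (Or.inr (Or.inr k)) ?_
        have h1 := (hc t (x + 1)).1 k.2.2.1
        have h2 := (hc t (x + 1)).2 k.2.2.2
        have e : x + 1 - 1 = x := by omega
        rw [e] at h1
        exact bool_eq_of_ne h1 h2
      · obtain ⟨a, hm, -⟩ := hU t (x + 1) k
        have := mt_lt hm
        exact (hen hx hm (by omega) (by omega)).elim
      · obtain ⟨b, hm⟩ := hD t (x + 1) k
        have hlt1 := mt_lt hm
        have hby : b ≤ y := by
          by_contra h1
          exact hen hy hm (by omega) (by omega)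
        have hUb : Un (A.sy t) b := by
          rintro ⟨a', b', hm', h1, h2⟩
          have hne : a' ≠ b := by
            rintro rfl
            have e1 := hm'.1
            have e2 := hm.2.1
            omega
          rcases lt_trichotomy a' (x + 1) with h3 | h3 | h3
          · exact hen hx hm' (by omega) (by omega)
          · subst h3
            have := mt_uniq1 hm hm'
            omega
          · have := mt_nc hm hm' h3 (by omega)
            omega
        obtain ⟨a, hma, hcol⟩ := hU t b (U_of_sy hm.2.1)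
        have ha : a = x + 1 := mt_uniq2 hma hm
        rw [ha] at hcol
        have e : x + 1 - 1 = x := by omega
        rw [e] at hcol
        rw [hcol]
        exact ih t b y hby (by omega) hUb hy
  have hsame' : ∀ t x y : ℤ, Un (A.sy t) x → Un (A.sy t) y → c t x = c t y := by
    intro t x y hx hy
    rcases le_total x y with h | h
    · exact hsame _ t x y h le_rfl hx hy
    · exact (hsame _ t y x h le_rfl hy hx).symm
  refine ⟨hUn, hsame', ?_⟩
  -- part (iii)
  have hnext : ∀ t : ℤ, ∃ x y, Un (A.sy t) x ∧ Un (A.sy (t + 1)) y ∧ c t x ≠ c (t + 1) y := by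
    intro t
    obtain ⟨x, hx⟩ := hUn t
    have hnD : ¬ A.D t x := by
      intro h
      obtain ⟨b, hm⟩ := hD t x h
      exact hen hx hm le_rfl (mt_lt hm)
    obtain ⟨g, hg⟩ := exists_g (A.sy t)
    let h : ℤ → ℤ := fun z => g (z - 1) + cr (A.e0 t z)
    have hh0 : ∀ z, h z = g (z - 1) + cr (A.e0 t z) := fun z => rfl
    have hh1 : ∀ z, g z = h z + cr (A.e1 t z) := by
      intro z
      rw [hh0, hg z, out_eq hA]
      ring
    have hh : ∀ z, h z = h (z - 1) + A.sy (t + 1) z := by
      intro z
      have e1 := hh1 (z - 1)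
      have e2 := hh0 z
      have e3 := in_eq hA (t + 1) z
      have e : t + 1 - 1 = t := by omega
      rw [e] at e3
      omega
    -- lower bound for g
    have hlow : ∀ z, h z ≤ g z ∨ h (z + 1) ≤ g z := by
      intro z
      have e1 := hh1 z
      cases he : A.e1 t z with
      | n => rw [he] at e1; left; simp only [cr_n, cr_u, cr_d] at e1; omega
      | d => rw [he] at e1; left; simp only [cr_n, cr_u, cr_d] at e1; omega
      | u =>
        right
        rw [he] at e1
        simp only [cr_n, cr_u, cr_d] at e1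
        have e2 := hh (z + 1)
        rw [sy_U (to_e1_u hA he)] at e2
        have e : z + 1 - 1 = z := by omega
        rw [e] at e2
        omega
    -- the main claim
    have hclaim : ∀ y, (y = x ∧ A.e1 t x = .n) ∨ (y = x + 1 ∧ A.e0 t (x + 1) = .n) →
        Un (A.sy (t + 1)) y := by
      rintro y hy ⟨a', b', hm, h1, h2⟩
      have hm0 := hm
      rw [mt_iff hh] at hm
      obtain ⟨ha, hb, hab, hδ, hz⟩ := hm
      have hDa := D_of_sy ha
      have hUb := U_of_sy hb
      have hya := hh a'
      have hyb := hh b'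
      rw [ha] at hya
      rw [hb] at hyb
      have et : t + 1 - 1 = t := by omega
      -- predecessor of b'
      have hpb : (A.U t b' ∧ A.e0 t b' = .u ∧ A.e1 t b' = .n) ∨
          (A.U t (b' - 1) ∧ A.e0 t (b' - 1) = .n ∧ A.e1 t (b' - 1) = .u) ∨
          (A.e0 t (b' - 1) = .d ∧ A.e1 t (b' - 1) = .u) := by
        rcases hUb.1 with ⟨p, q⟩ | ⟨p, q⟩
        · rw [et] at p
          have h3 := of_e0_u hA p
          rcases h3.2 with ⟨r1, r2⟩ | ⟨r1, r2⟩
          · exact Or.inl ⟨h3, p, r2⟩
          · rw [p] at r1; exact absurd r1 (by decide)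
        · rw [et] at q
          rcases of_e1_u hA q with h3 | h3
          · rcases h3.2 with ⟨r1, r2⟩ | ⟨r1, r2⟩
            · rw [q] at r2; exact absurd r2 (by decide)
            · exact Or.inr (Or.inl ⟨h3, r1, q⟩)
          · exact Or.inr (Or.inr ⟨h3.2.2.1, q⟩)
      -- predecessor of a'
      have hpa : (A.D t a' ∧ A.e0 t a' = .d ∧ A.e1 t a' = .n) ∨
          (A.D t (a' - 1) ∧ A.e0 t (a' - 1) = .n ∧ A.e1 t (a' - 1) = .d) ∨
          (A.e0 t a' = .d ∧ A.e1 t a' = .u) := by
        rcases hDa.1 with ⟨p, q⟩ | ⟨p, q⟩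
        · rw [et] at p
          rcases of_e0_d hA p with h3 | h3
          · rcases h3.2 with ⟨r1, r2⟩ | ⟨r1, r2⟩
            · exact Or.inl ⟨h3, p, r2⟩
            · rw [p] at r1; exact absurd r1 (by decide)
          · exact Or.inr (Or.inr ⟨p, h3.2.2.2⟩)
        · rw [et] at q
          have h3 := of_e1_d hA q
          rcases h3.2 with ⟨r1, r2⟩ | ⟨r1, r2⟩
          · rw [q] at r2; exact absurd r2 (by decide)
          · exact Or.inr (Or.inl ⟨h3, r1, q⟩)
      -- a start vertex is excluded
      have hS : ∀ s, A.e0 t s = .d → A.e1 t s = .u → y ≠ s := by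
        intro s p q hys
        rcases hy with ⟨h3, h4⟩ | ⟨h3, h4⟩
        · rw [← h3, hys, q] at h4; exact absurd h4 (by decide)
        · rw [← h3, hys, p] at h4; exact absurd h4 (by decide)
      rcases hpb with hpb | hpb | hpb
      rotate_left 2
      · -- case A
        have h3 := sy_D (to_e0_d hA hpb.1)
        have h4 := hh (b' - 1)
        rw [h3] at h4
        have h5 : ¬ a' < b' - 1 := by
          intro h5
          have h6 := hz (b' - 1 - 1) (by omega) (by omega)
          omega
        exact hS (b' - 1) hpb.1 hpb.2 (by omega)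
      all_goals rcases hpa with hpa | hpa | hpa
      · -- b = b', a = a'
        have hm : Mt (A.sy t) a' b' := by
          rw [mt_iff hg]
          have e1 := hh1 a'
          have e2 := hh0 b'
          rw [hpa.2.2] at e1
          rw [hpb.2.1] at e2
          simp only [cr_n, cr_u, cr_d] at e1 e2
          refine ⟨sy_D hpa.1, sy_U hpb.1, hab, by omega, fun z hz1 hz2 => ?_⟩
          by_cases h3 : z + 1 < b'
          · rcases hlow z with h4 | h4
            · have := hz z (by omega) (by omega); omega
            · have := hz (z + 1) (by omega) (by omega); omega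
          · have : z = b' - 1 := by omega
            rw [this]; omega
        rcases hy with ⟨h3, h4⟩ | ⟨h3, h4⟩
        · exact hen hx hm (by omega) (by omega)
        · refine hen hx hm ?_ (by omega)
          by_contra h5
          have : a' = x + 1 := by omega
          rw [← this, hpa.2.1] at h4
          exact absurd h4 (by decide)
      · -- b = b', a = a' - 1
        have hm : Mt (A.sy t) (a' - 1) b' := by
          rw [mt_iff hg]
          have e1 := hh1 (a' - 1)
          have e2 := hh0 b'
          rw [hpa.2.2] at e1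
          rw [hpb.2.1] at e2
          simp only [cr_n, cr_u, cr_d] at e1 e2
          refine ⟨sy_D hpa.1, sy_U hpb.1, by omega, by omega, fun z hz1 hz2 => ?_⟩
          rcases eq_or_lt_of_le hz1 with rfl | hz1'
          · exact le_rfl
          by_cases h3 : z + 1 < b'
          · rcases hlow z with h4 | h4
            · have := hz z (by omega) (by omega); omega
            · have := hz (z + 1) (by omega) (by omega); omega
          · have : z = b' - 1 := by omega
            rw [this]; omega
        rcases hy with ⟨h3, h4⟩ | ⟨h3, h4⟩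
        · exact hen hx hm (by omega) (by omega)
        · exact hen hx hm (by omega) (by omega)
      · -- case B
        have h3 := sy_U (to_e1_u hA hpa.2)
        have h4 := hh (a' + 1)
        rw [h3] at h4
        have e : a' + 1 - 1 = a' := by omega
        rw [e] at h4
        have h5 : ¬ a' + 1 < b' := by
          intro h5
          have h6 := hz (a' + 1) (by omega) (by omega)
          omega
        exact hS a' hpa.1 hpa.2 (by omega)
      · -- b = b' - 1, a = a'
        have hne : a' ≠ b' - 1 := by
          intro h3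
          rw [← h3] at hpb
          exact not_UD hpb.1 hpa.1
        have hm : Mt (A.sy t) a' (b' - 1) := by
          rw [mt_iff hg]
          have e1 := hh1 a'
          have e2 := hh0 (b' - 1)
          rw [hpa.2.2] at e1
          rw [hpb.2.1] at e2
          simp only [cr_n, cr_u, cr_d] at e1 e2
          refine ⟨sy_D hpa.1, sy_U hpb.1, by omega, by omega, fun z hz1 hz2 => ?_⟩
          rcases hlow z with h4 | h4
          · have := hz z (by omega) (by omega); omega
          · have := hz (z + 1) (by omega) (by omega); omega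
        rcases hy with ⟨h3, h4⟩ | ⟨h3, h4⟩
        · refine hen hx hm (by omega) ?_
          by_contra h5
          have : x = b' - 1 := by omega
          rw [this, hpb.2.2] at h4
          exact absurd h4 (by decide)
        · refine hen hx hm ?_ (by omega)
          by_contra h5
          have : a' = x + 1 := by omega
          rw [← this, hpa.2.1] at h4
          exact absurd h4 (by decide)
      · -- b = b' - 1, a = a' - 1
        have hm : Mt (A.sy t) (a' - 1) (b' - 1) := by
          rw [mt_iff hg]
          have e1 := hh1 (a' - 1)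
          have e2 := hh0 (b' - 1)
          rw [hpa.2.2] at e1
          rw [hpb.2.1] at e2
          simp only [cr_n, cr_u, cr_d] at e1 e2
          refine ⟨sy_D hpa.1, sy_U hpb.1, by omega, by omega, fun z hz1 hz2 => ?_⟩
          rcases eq_or_lt_of_le hz1 with rfl | hz1'
          · exact le_rfl
          rcases hlow z with h4 | h4
          · have := hz z (by omega) (by omega); omega
          · have := hz (z + 1) (by omega) (by omega); omega
        rcases hy with ⟨h3, h4⟩ | ⟨h3, h4⟩
        · refine hen hx hm (by omega) ?_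
          by_contra h5
          have : x = b' - 1 := by omega
          rw [this, hpb.2.2] at h4
          exact absurd h4 (by decide)
        · exact hen hx hm (by omega) (by omega)
      · -- case B again
        have h3 := sy_U (to_e1_u hA hpa.2)
        have h4 := hh (a' + 1)
        rw [h3] at h4
        have e : a' + 1 - 1 = a' := by omega
        rw [e] at h4
        have h5 : ¬ a' + 1 < b' := by
          intro h5
          have h6 := hz (a' + 1) (by omega) (by omega)
          omega
        exact hS a' hpa.1 hpa.2 (by omega)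
    by_cases hn : A.e1 t x = .n
    · exact ⟨x, x, hx, hclaim x (Or.inl ⟨rfl, hn⟩), ((hc t x).2 hn).symm⟩
    · by_cases hn0 : A.e0 t (x + 1) = .n
      · refine ⟨x, x + 1, hx, hclaim (x + 1) (Or.inr ⟨rfl, hn0⟩), ?_⟩
        have := (hc t (x + 1)).1 hn0
        have e : x + 1 - 1 = x := by omega
        rw [e] at this
        exact this.symm
      · exact (hnD (of_e1_d hA (in_both hA hn hn0))).elim
  intro t x y hx hy
  obtain ⟨x', y', hx', hy', hne⟩ := hnext t
  rw [hsame' t x x' hx hx', hsame' (t + 1) y y' hy hy']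
  exact hne

end Pool.Agent.W227.BM
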