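import Pool.Agent.W927.BM.Stm

/-!
The layer of a family of good islands satisfies the local rule.
-/

set_option autoImplicit false

namespace Pool.Agent.W227.BMLab

open Pool.Agent.W927.BM

/-! ### scales -/

theorem Sk_ge (k : ℕ) : 2 ^ 16 ≤ Sk k := by
  induction k with
  | zero => exact le_rfl
  | succ k ih =>
    show 2 ^ 16 ≤ 2 ^ (3 * k + 48) * Sk k
    have h1 : (1 : ℤ) ≤ 2 ^ (3 * k + 48) := one_le_pow₀ (by norm_num)
    nlinarith

theorem Sk_succ (k : ℕ) : 2 * Sk k ≤ Sk (k + 1) := by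
  show 2 * Sk k ≤ 2 ^ (3 * k + 48) * Sk k
  have h0 := Sk_ge k
  have h1 : (2 : ℤ) ≤ 2 ^ (3 * k + 48) := by
    calc (2 : ℤ) = 2 ^ 1 := by norm_num
      _ ≤ 2 ^ (3 * k + 48) := pow_le_pow_right₀ (by norm_num) (by omega)
  nlinarith

theorem Sk_mono {k k' : ℕ} (h : k ≤ k') : Sk k ≤ Sk k' := by
  induction k', h using Nat.le_induction with
  | base => exact le_rfl
  | succ k' _ ih =>
    have := Sk_succ k'
    have := Sk_ge k'
    omega

theorem Sk_lt {k k' : ℕ} (h : k < k') : Sk k + 2 ≤ Sk k' := by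
  have h1 : Sk (k + 1) ≤ Sk k' := Sk_mono h
  have h2 := Sk_succ k
  have h3 := Sk_ge k
  omega

theorem Tk_ge (k : ℕ) : Sk k ≤ Tk k := by
  unfold Tk
  have h1 : (1 : ℤ) ≤ 2 ^ (k + 16) := one_le_pow₀ (by norm_num)
  have h0 := Sk_ge k
  nlinarith

theorem Rk_ge (k : ℕ) : 2 * Sk k + 2 ≤ Rk k := by
  unfold Rk
  have h0 := Sk_ge k
  have h1 : (4 : ℤ) ≤ 2 ^ (2 * k + 32) := by
    calc (4 : ℤ) = 2 ^ 2 := by norm_num
      _ ≤ 2 ^ (2 * k + 32) := pow_le_pow_right₀ (by norm_num) (by omega)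
  nlinarith

theorem dd_le {p q : ℤ × ℤ} {r : ℤ} : dd p q ≤ r ↔
    (p.1 - q.1 ≤ r ∧ q.1 - p.1 ≤ r) ∧ (p.2 - q.2 ≤ r ∧ q.2 - p.2 ≤ r) := by
  unfold dd
  rw [max_le_iff, abs_le, abs_le]
  constructor
  · rintro ⟨⟨h1, h2⟩, h3, h4⟩; exact ⟨⟨h2, by linarith⟩, h4, by linarith⟩
  · rintro ⟨⟨h1, h2⟩, h3, h4⟩; exact ⟨⟨by linarith, h1⟩, by linarith, h3⟩

theorem dd_move {p q r : ℤ × ℤ} {m n : ℤ} (h1 : dd p q ≤ m) (h2 : n ≤ dd p r) :
    n - m ≤ dd q r := by
  by_contra h3
  have h4 : dd q r ≤ n - m - 1 := by omega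
  rw [dd_le] at h1 h4
  have h5 : dd p r ≤ n - 1 := by
    rw [dd_le]; omega
  omega

/-! ### the pattern of one island -/

theorem pattern {I : Lens} {k : ℕ} {C : ℕ → Set (ℤ × ℤ)} (h : I.OK k C) (s y : ℤ) :
    (I.In (s - 1) (y - 1) ∧ I.In s (y - 1) ∧ I.In s y ∧ I.In (s + 1) y) ∨
    (¬ I.In (s - 1) (y - 1) ∧ ¬ I.In s (y - 1) ∧ ¬ I.In s y ∧ ¬ I.In (s + 1) y) ∨
    (s = I.t0 ∧ y = I.x0 ∧ ¬ I.In (s - 1) (y - 1) ∧ ¬ I.In s (y - 1) ∧ ¬ I.In s y ∧
      I.In (s + 1) y) ∨
    (s = I.t1 ∧ y = I.x1 ∧ I.In (s - 1) (y - 1) ∧ ¬ I.In s (y - 1) ∧ ¬ I.In s y ∧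
      ¬ I.In (s + 1) y) ∨
    (I.t0 < s ∧ s < I.t1 ∧ y = I.u s ∧ I.In s (y - 1) ∧ ¬ I.In s y ∧
      (I.In (s - 1) (y - 1) ↔ I.u (s - 1) = I.u s) ∧
      (I.In (s + 1) y ↔ I.u (s + 1) = I.u s + 1)) ∨
    (I.t0 < s ∧ s < I.t1 ∧ y = I.d s ∧ ¬ I.In s (y - 1) ∧ I.In s y ∧
      (I.In (s - 1) (y - 1) ↔ I.d (s - 1) = I.d s - 1) ∧
      (I.In (s + 1) y ↔ I.d (s + 1) = I.d s)) := by
  have hlong := h.long
  have ht0 := h.t0_neg
  have ht1 := h.t1_pos
  unfold Lens.In
  rcases lt_trichotomy s I.t0 with h1 | h1 | h1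
  · right; left; omega
  · subst h1
    have e1 := h.ut0'
    have e2 := h.dt0'
    by_cases hy : y = I.x0
    · right; right; left
      refine ⟨rfl, hy, by omega, by omega, by omega, by omega⟩
    · right; left; omega
  rcases lt_trichotomy s I.t1 with h2 | h2 | h2
  rotate_left
  · subst h2
    have e1 := h.ut1'
    have e2 := h.dt1'
    by_cases hy : y = I.x1
    · right; right; right; left
      refine ⟨rfl, hy, by omega, by omega, by omega, by omega⟩
    · right; left; omega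
  · right; left; omega
  have l0 := h.lt s h1 h2
  have u1 := h.ustep s (by omega) h2
  have d1 := h.dstep s (by omega) h2
  have es : s - 1 + 1 = s := by omega
  have u0 := h.ustep (s - 1) (by omega) (by omega)
  have d0 := h.dstep (s - 1) (by omega) (by omega)
  rw [es] at u0 d0
  -- neighbours of the tips
  have a0 : s - 1 = I.t0 → I.u s = I.x0 + 1 ∧ I.d s = I.x0 ∧ I.u (s - 1) = I.x0 ∧
      I.d (s - 1) = I.x0 := by
    intro e
    have e' : s = I.t0 + 1 := by omega
    rw [e, e', h.ut0', h.dt0', h.ut0, h.dt0]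
    exact ⟨rfl, rfl, rfl, rfl⟩
  have a1 : s + 1 = I.t1 → I.u s = I.x1 ∧ I.d s = I.x1 - 1 ∧ I.u (s + 1) = I.x1 ∧
      I.d (s + 1) = I.x1 := by
    intro e
    have e' : s = I.t1 - 1 := by omega
    rw [e, e', h.ut1', h.dt1', h.ut1, h.dt1]
    exact ⟨rfl, rfl, rfl, rfl⟩
  have l1 : I.t0 < s - 1 → I.d (s - 1) < I.u (s - 1) := fun e => h.lt _ e (by omega)
  have l2 : s + 1 < I.t1 → I.d (s + 1) < I.u (s + 1) := fun e => h.lt _ (by omega) e
  by_cases hb : I.d s ≤ y - 1 ∧ y - 1 < I.u s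
  · by_cases ha : y < I.u s
    · left; omega
    · right; right; right; right; left
      have hy : y = I.u s := by omega
      refine ⟨h1, h2, hy, by omega, by omega, ?_, ?_⟩
      · constructor <;> intro e <;> omega
      · constructor <;> intro e <;> omega
  · by_cases ha : I.d s ≤ y ∧ y < I.u s
    · right; right; right; right; right
      have hy : y = I.d s := by omega
      refine ⟨h1, h2, hy, by omega, by omega, ?_, ?_⟩
      · constructor <;> intro e <;> omega
      · constructor <;> intro e <;> omega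
    · right; left; omega

/-! ### families -/

/-- the four cells of a vertex -/
def Four (t x t' x' : ℤ) : Prop :=
  (t' = t - 1 ∧ x' = x - 1) ∨ (t' = t ∧ x' = x - 1) ∨ (t' = t ∧ x' = x) ∨ (t' = t + 1 ∧ x' = x)

theorem Four.l (t x : ℤ) : Four t x (t - 1) (x - 1) := Or.inl ⟨rfl, rfl⟩
theorem Four.b (t x : ℤ) : Four t x t (x - 1) := Or.inr (Or.inl ⟨rfl, rfl⟩)
theorem Four.a (t x : ℤ) : Four t x t x := Or.inr (Or.inr (Or.inl ⟨rfl, rfl⟩))
theorem Four.r (t x : ℤ) : Four t x (t + 1) x := Or.inr (Or.inr (Or.inr ⟨rfl, rfl⟩))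

theorem Four.bd {t x t' x' : ℤ} (h : Four t x t' x') : t' - t ≤ 1 ∧ t - t' ≤ 1 ∧ x' - x ≤ 1 ∧
    x - x' ≤ 1 := by
  unfold Four at h; omega

section family

variable {C : ℕ → Set (ℤ × ℤ)} {lev : ℤ → ℤ → ℕ} {cen : ℤ → ℤ → ℤ × ℤ}
  {dat : ℕ → ℤ × ℤ → LData}

/-- the hypotheses of the theorem -/
structure Hyp (C : ℕ → Set (ℤ × ℤ)) (lev : ℤ → ℤ → ℕ) (cen : ℤ → ℤ → ℤ × ℤ)
    (dat : ℕ → ℤ × ℤ → LData) : Prop where
  sep : ∀ k, Sep (C k) (Rk k)
  ok : ∀ k, ∀ z ∈ C k, (dat k z).I.OK k (shC C z)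
  rt : ∀ k, ∀ z ∈ C k, (dat k z).I.Route k (shC C z) (dat k z).b (dat k z).q
  cenC : ∀ t x, cen t x ∈ C (lev t x)
  cenI : ∀ t x, (dat (lev t x) (cen t x)).I.In (t - (cen t x).1) (x - (cen t x).2)
  min : ∀ t x, ∀ k < lev t x, ∀ z ∈ C k, ¬ (dat k z).I.In (t - z.1) (x - z.2)

/-- the cell is in the island -/
def InP (dat : ℕ → ℤ × ℤ → LData) (k : ℕ) (z : ℤ × ℤ) (t x : ℤ) : Prop :=
  (dat k z).I.In (t - z.1) (x - z.2)

/-- the vertex is a wall vertex of the island -/
def WV (dat : ℕ → ℤ × ℤ → LData) (k : ℕ) (z : ℤ × ℤ) (t x : ℤ) : Prop :=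
  (dat k z).I.t0 ≤ t - z.1 ∧ t - z.1 ≤ (dat k z).I.t1 ∧
    (x - z.2 = (dat k z).I.u (t - z.1) ∨ x - z.2 = (dat k z).I.d (t - z.1))

variable (H : Hyp C lev cen dat)

include H

theorem box {k : ℕ} {z : ℤ × ℤ} (hz : z ∈ C k) {t x : ℤ} (h : InP dat k z t x) :
    dd (t, x) z ≤ Sk k := by
  have ho := H.ok k z hz
  obtain ⟨h1, h2, h3, h4⟩ := h
  have b0 := ho.bt0
  have b1 := ho.bt1
  have bu := ho.bu (t - z.1) (by omega) (by omega)
  have bd := ho.bd (t - z.1) (by omega) (by omega)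
  rw [abs_le] at bu bd
  rw [dd_le]
  dsimp only
  omega

theorem wfar {k : ℕ} {z : ℤ × ℤ} (hz : z ∈ C k) {t x : ℤ} (h : WV dat k z t x) {i : ℕ}
    (hi : i < k) {z' : ℤ × ℤ} (hz' : z' ∈ C i) : Tk i + 2 ≤ dd (t, x) z' := by
  have ho := H.ok k z hz
  obtain ⟨h1, h2, h3⟩ := h
  have hm : z' - z ∈ shC C z i := by
    show z' - z + z ∈ C i
    rw [sub_add_cancel]; exact hz'
  have key : Tk i + 2 ≤ dd (t - z.1, x - z.2) (z' - z) := by
    rcases h3 with h3 | h3
    · rw [h3]; exact ho.ufar _ h1 h2 i hi _ hm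
    · rw [h3]; exact ho.dfar _ h1 h2 i hi _ hm
  have e : dd (t - z.1, x - z.2) (z' - z) = dd (t, x) z' := by
    unfold dd
    rw [Prod.fst_sub, Prod.snd_sub]
    dsimp only
    congr 2 <;> ring
  rwa [e] at key

theorem same {k : ℕ} {z z' : ℤ × ℤ} (hz : z ∈ C k) (hz' : z' ∈ C k) {t x t' x' : ℤ}
    (h : InP dat k z t x) (h' : InP dat k z' t' x') (hd : dd (t, x) (t', x') ≤ 2) : z = z' := by
  by_contra hne
  have h1 := H.sep k z hz z' hz' hne
  have h2 := box H hz h
  have h3 := box H hz' h'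
  have h4 := Rk_ge k
  rw [dd_le] at h2 h3 hd
  have h5 : dd z z' ≤ 2 * Sk k + 2 := by
    rw [dd_le]
    dsimp only at h2 h3 hd
    omega
  omega

omit H in
theorem four_dd {t x t1 x1 t2 x2 : ℤ} (h1 : Four t x t1 x1) (h2 : Four t x t2 x2) :
    dd (t1, x1) (t2, x2) ≤ 2 := by
  have a := h1.bd
  have b := h2.bd
  rw [dd_le]
  dsimp only
  omega

theorem inP_self (t x : ℤ) : InP dat (lev t x) (cen t x) t x := H.cenI t x

theorem K {k : ℕ} {z : ℤ × ℤ} (hz : z ∈ C k) {t x : ℤ} (h : WV dat k z t x) {t' x' : ℤ}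
    (h4 : Four t x t' x') : k ≤ lev t' x' := by
  by_contra hlt
  have h1 := wfar H hz h (not_le.1 hlt) (H.cenC t' x')
  have h2 := box H (H.cenC t' x') (inP_self H t' x')
  have h3 := h4.bd
  have h5 := Tk_ge (lev t' x')
  rw [dd_le] at h2
  have h6 : dd (t, x) (cen t' x') ≤ Sk (lev t' x') + 1 := by
    rw [dd_le]
    dsimp only at h2 ⊢
    omega
  omega

theorem lev_eq {k : ℕ} {z : ℤ × ℤ} (hz : z ∈ C k) {t x : ℤ} (h : InP dat k z t x)
    (hk : k ≤ lev t x) : lev t x = k ∧ cen t x = z := by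
  have h1 : lev t x = k := by
    by_contra hne
    exact H.min t x k (by omega) z hz h
  refine ⟨h1, ?_⟩
  subst h1
  exact same H (H.cenC t x) hz (inP_self H t x) h (by rw [dd_le]; dsimp only; omega)

theorem cen_eq {k : ℕ} {z : ℤ × ℤ} (hz : z ∈ C k) {t x t' x' : ℤ} (h : InP dat k z t' x')
    (hk : lev t x = k) (hd : dd (t, x) (t', x') ≤ 2) : cen t x = z ∧ InP dat k z t x := by
  subst hk
  have h1 : cen t x = z := same H (H.cenC t x) hz (inP_self H t x) h hd
  refine ⟨h1, ?_⟩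
  have h2 := inP_self H t x
  rw [h1] at h2
  exact h2

/-- pattern in absolute coordinates, first form -/
theorem wall_of {k : ℕ} {z : ℤ × ℤ} (hz : z ∈ C k) {t x t1 x1 t2 x2 : ℤ} (h1 : Four t x t1 x1)
    (h2 : Four t x t2 x2) (hi : InP dat k z t1 x1) (hn : ¬ InP dat k z t2 x2) :
    WV dat k z t x := by
  have ho := H.ok k z hz
  have e1 : t - z.1 - 1 = t - 1 - z.1 := by ring
  have e2 : t - z.1 + 1 = t + 1 - z.1 := by ring
  have e3 : x - z.2 - 1 = x - 1 - z.2 := by ring
  have key : ∀ {t' x' : ℤ}, Four t x t' x' → ∀ P : ℤ → ℤ → Prop,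
      P (t - 1) (x - 1) ∧ P t (x - 1) ∧ P t x ∧ P (t + 1) x → P t' x' := by
    rintro t' x' (⟨rfl, rfl⟩ | ⟨rfl, rfl⟩ | ⟨rfl, rfl⟩ | ⟨rfl, rfl⟩) P ⟨p1, p2, p3, p4⟩
    · exact p1
    · exact p2
    · exact p3
    · exact p4
  rcases pattern ho (t - z.1) (x - z.2) with h | h | h | h | h | h
  · rw [e1, e2, e3] at h
    exact absurd (key h2 (InP dat k z) h) hn
  · rw [e1, e2, e3] at h
    exact absurd hi (key h1 (fun a b => ¬ InP dat k z a b) h)
  · refine ⟨by omega, by have := ho.long; omega, Or.inl ?_⟩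
    rw [h.1, h.2.1, ho.ut0]
  · refine ⟨by have := ho.long; omega, by omega, Or.inl ?_⟩
    rw [h.1, h.2.1, ho.ut1]
  · exact ⟨by omega, by omega, Or.inl h.2.2.1⟩
  · exact ⟨by omega, by omega, Or.inr h.2.2.1⟩

/-- the structure at a vertex -/
theorem struct (t x : ℤ) :
    (∃ k z, z ∈ C k ∧ ∀ t' x', Four t x t' x' → lev t' x' = k ∧ cen t' x' = z) ∨
    (∃ k z k' z', k < k' ∧ z ∈ C k ∧ z' ∈ C k' ∧ WV dat k z t x ∧
      (∃ t' x', Four t x t' x' ∧ InP dat k z t' x') ∧
      (∃ t' x', Four t x t' x' ∧ ¬ InP dat k z t' x') ∧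
      ∀ t' x', Four t x t' x' → (InP dat k z t' x' ∧ lev t' x' = k ∧ cen t' x' = z) ∨
        (¬ InP dat k z t' x' ∧ lev t' x' = k' ∧ cen t' x' = z')) := by
  classical
  have hne : ∃ n, ∃ t' x', Four t x t' x' ∧ lev t' x' = n := ⟨_, _, _, Four.a t x, rfl⟩
  obtain ⟨tm, xm, hm, hk⟩ := Nat.find_spec hne
  have hmin : ∀ t' x', Four t x t' x' → lev tm xm ≤ lev t' x' := by
    intro t' x' h
    rw [hk]
    exact Nat.find_min' hne ⟨t', x', h, rfl⟩
  clear hk
  set k := lev tm xm with hkdef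
  set z := cen tm xm with hzdef
  have hz : z ∈ C k := H.cenC tm xm
  have hin : InP dat k z tm xm := inP_self H tm xm
  have hiff : ∀ t' x', Four t x t' x' → (InP dat k z t' x' ∧ lev t' x' = k ∧ cen t' x' = z) ∨
      (¬ InP dat k z t' x' ∧ k < lev t' x') := by
    intro t' x' h
    rcases eq_or_lt_of_le (hmin t' x' h) with h1 | h1
    · left
      obtain ⟨h2, h3⟩ := cen_eq H hz hin h1.symm (four_dd h hm)
      exact ⟨h3, h1.symm, h2⟩
    · right
      exact ⟨H.min t' x' k h1 z hz, h1⟩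
  by_cases hall : ∀ t' x', Four t x t' x' → InP dat k z t' x'
  · left
    refine ⟨k, z, hz, fun t' x' h => ?_⟩
    rcases hiff t' x' h with h1 | h1
    · exact h1.2
    · exact absurd (hall t' x' h) h1.1
  · right
    push Not at hall
    obtain ⟨tn, xn, hn, hnin⟩ := hall
    have hwv : WV dat k z t x := wall_of H hz hm hn hin hnin
    have hkn : k < lev tn xn := by
      rcases hiff tn xn hn with h1 | h1
      · exact absurd h1.1 hnin
      · exact h1.2
    -- no wall vertex of a higher level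
    have hno : ∀ {k1 : ℕ} {z1 : ℤ × ℤ}, z1 ∈ C k1 → k < k1 → ¬ WV dat k1 z1 t x := by
      intro k1 z1 hz1 hk1 hw
      have h1 := wfar H hz1 hw hk1 hz
      have h2 := box H hz hin
      have h3 := hm.bd
      have h5 := Tk_ge k
      rw [dd_le] at h2
      have h6 : dd (t, x) z ≤ Sk k + 1 := by
        rw [dd_le]
        dsimp only at h2 ⊢
        omega
      omega
    refine ⟨k, z, lev tn xn, cen tn xn, hkn, hz, H.cenC tn xn, hwv, ⟨tm, xm, hm, hin⟩,
      ⟨tn, xn, hn, hnin⟩, fun t' x' h => ?_⟩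
    rcases hiff t' x' h with h1 | ⟨h1, h2⟩
    · exact Or.inl h1
    · right
      have h3 : lev t' x' = lev tn xn := by
        rcases lt_trichotomy (lev t' x') (lev tn xn) with h4 | h4 | h4
        · exact absurd (wall_of H (H.cenC t' x') h hn (inP_self H t' x')
            (H.min tn xn _ h4 _ (H.cenC t' x'))) (hno (H.cenC t' x') h2)
        · exact h4
        · exact absurd (wall_of H (H.cenC tn xn) hn h (inP_self H tn xn)
            (H.min t' x' _ h4 _ (H.cenC tn xn))) (hno (H.cenC tn xn) hkn)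
      exact ⟨h1, h3, (cen_eq H (H.cenC tn xn) (inP_self H tn xn) h3 (four_dd h hn)).1⟩

/-- heights of the outer island at a wall vertex of the inner island are constant -/
theorem hconst {k k' : ℕ} {z z' : ℤ × ℤ} (hkk : k < k') (hz : z ∈ C k) (hz' : z' ∈ C k')
    {t x : ℤ} (hw : WV dat k z t x) {t0 x0 : ℤ} (h0 : Four t x t0 x0) (hi : InP dat k z t0 x0)
    {t1 x1 t2 x2 : ℤ} (h1 : Four t x t1 x1) (h2 : Four t x t2 x2) (hi1 : InP dat k' z' t1 x1) :
    (dat k' z').b (t1 - z'.1) (x1 - z'.2) = (dat k' z').b (t2 - z'.1) (x2 - z'.2) := by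
  have hr := H.rt k' z' hz'
  have hm : z - z' ∈ shC C z' k := by
    show z - z' + z' ∈ C k
    rw [sub_add_cancel]; exact hz
  have hb0 := box H hz hi
  have hb1 := box H hz' hi1
  have hS := Sk_lt hkk
  have f0 := h0.bd
  have f1 := h1.bd
  have f2 := h2.bd
  rw [dd_le] at hb0 hb1
  dsimp only at hb0 hb1
  have hdd : dd (z - z') (0, 0) ≤ 2 * Sk k' := by
    rw [dd_le, Prod.fst_sub, Prod.snd_sub]
    dsimp only
    omega
  have hv : ∀ {t3 x3 : ℤ}, Four t x t3 x3 → dd (t3 - z'.1, x3 - z'.2) (z - z') ≤ Sk k + 2 := by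
    intro t3 x3 h3
    have f3 := h3.bd
    rw [dd_le, Prod.fst_sub, Prod.snd_sub]
    dsimp only
    omega
  have hfar : ∀ {t3 x3 : ℤ}, Four t x t3 x3 → Far (shC C z') k 0 (t3 - z'.1, x3 - z'.2) := by
    intro t3 x3 h3 i hik z'' hz''
    have hw' := wfar H hz hw hik (z' := z'' + z') hz''
    have f3 := h3.bd
    have h4 : dd (t, x) (t3, x3) ≤ 1 := by
      rw [dd_le]; dsimp only; omega
    have h5 := dd_move h4 hw'
    have e : dd (t3 - z'.1, x3 - z'.2) z'' = dd (t3, x3) (z'' + z') := by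
      unfold dd
      rw [Prod.fst_add, Prod.snd_add]
      dsimp only
      congr 2 <;> ring
    rw [e]
    omega
  exact hr.const k hkk (z - z') hm hdd (t1 - z'.1, x1 - z'.2) (t2 - z'.1, x2 - z'.2) (hv h1)
    (hv h2) (hfar h1) (hfar h2)

end family

/-! ### labels -/

theorem cmp_eq (k : ℕ) : cmpL k k = .n := by unfold cmpL; rw [if_pos rfl]
theorem cmp_lt {k k' : ℕ} (h : k < k') : cmpL k k' = .u := by
  unfold cmpL; rw [if_neg h.ne, if_pos h]
theorem cmp_gt {k k' : ℕ} (h : k < k') : cmpL k' k = .d := by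
  unfold cmpL; rw [if_neg h.ne', if_neg (by omega)]

section generic

variable {A : Lay} {t x : ℤ} {n : ℕ}

theorem not_UN (h1 : A.U t x) (h2 : A.N t x) : False := by
  obtain ⟨-, ⟨a, b⟩ | ⟨a, b⟩⟩ := h1
  · rw [h2.2.2.1] at a; exact absurd a (by decide)
  · rw [h2.2.2.2] at b; exact absurd b (by decide)

theorem not_US (h1 : A.U t x) (h2 : A.S t x) : False := by
  obtain ⟨-, ⟨a, b⟩ | ⟨a, b⟩⟩ := h1
  · rw [h2.2.2.1] at a; exact absurd a (by decide)
  · rw [h2.2.2.1] at a; exact absurd a (by decide)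

theorem not_UM (h1 : A.U t x) (h2 : A.M t x) : False := by
  obtain ⟨-, ⟨a, b⟩ | ⟨a, b⟩⟩ := h1
  · rw [h2.2.2.1] at a; exact absurd a (by decide)
  · rw [h2.2.2.2] at b; exact absurd b (by decide)

theorem not_UD (h1 : A.U t x) (h2 : A.D t x) : False := by
  obtain ⟨-, h1⟩ := h1
  obtain ⟨-, h2⟩ := h2
  rcases h1 with ⟨a, b⟩ | ⟨a, b⟩ <;> rcases h2 with ⟨c, d⟩ | ⟨c, d⟩ <;> rw [a] at c <;>
    rw [b] at d <;> first | (exact absurd c (by decide)) | (exact absurd d (by decide))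

theorem loc_N (hN : A.N t x) (hl : A.NoLine t x ∨ A.Line t x) (hq : A.q t x < n)
    (hns : A.S t x ∨ A.M t x ∨ A.D t x → False) : A.Loc n t x where
  typ := Or.inl hN
  lin _ := hl
  nol h := (hns h).elim
  ul0 h := (not_UN h hN).elim
  ul1 h := (not_UN h hN).elim
  ulE h := (not_UN h hN).elim
  ulS h := (not_UN h hN).elim
  nx0 h := (not_UN h hN).elim
  nx1 h := (not_UN h hN).elim
  qlt := hq

theorem loc_W (hW : A.S t x ∨ A.M t x ∨ A.D t x) (hl : A.NoLine t x) (hq : A.q t x < n) :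
    A.Loc n t x := by
  have hnU : ¬ A.U t x := by
    intro hU
    rcases hW with h | h | h
    · exact not_US hU h
    · exact not_UM hU h
    · exact not_UD hU h
  exact
    { typ := by tauto
      lin := fun _ => Or.inl hl
      nol := fun _ => hl
      ul0 := fun h => (hnU h).elim
      ul1 := fun h => (hnU h).elim
      ulE := fun h => (hnU h).elim
      ulS := fun h => (hnU h).elim
      nx0 := fun h => (hnU h).elim
      nx1 := fun h => (hnU h).elim
      qlt := hq }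

theorem loc_U (hU : A.U t x) (h0 : A.l0 (t - 1) x = false) (h1 : A.l1 t x = false)
    (hE : A.l1 (t - 1) (x - 1) = true → A.e0 (t - 1) x = .u ∧ A.p t x = true)
    (hS : A.l0 t x = true → A.e1 t x = .u ∧ A.p t x = false)
    (n0 : A.e0 t x = .u → A.U (t + 1) x → A.Nx t x x)
    (n1 : A.e1 t x = .u → A.U (t + 1) (x + 1) → A.Nx t x (x + 1)) (hq : A.q t x < n) :
    A.Loc n t x where
  typ := by tauto
  lin h := (not_UN hU h).elim
  nol h := by
    rcases h with h | h | h
    · exact (not_US hU h).elim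
    · exact (not_UM hU h).elim
    · exact (not_UD hU h).elim
  ul0 _ := h0
  ul1 _ := h1
  ulE _ := hE
  ulS _ := hS
  nx0 _ := n0
  nx1 _ := n1
  qlt := hq

end generic

section fam2

variable {C : ℕ → Set (ℤ × ℤ)} {lev : ℤ → ℤ → ℕ} {cen : ℤ → ℤ → ℤ × ℤ}
  {dat : ℕ → ℤ × ℤ → LData}

/-- height of a cell -/
def bb (lev : ℤ → ℤ → ℕ) (cen : ℤ → ℤ → ℤ × ℤ) (dat : ℕ → ℤ × ℤ → LData) (t x : ℤ) : ℤ :=
  (dat (lev t x) (cen t x)).b (t - (cen t x).1) (x - (cen t x).2)

theorem bb_eq {k : ℕ} {z : ℤ × ℤ} {t x : ℤ} (h1 : lev t x = k) (h2 : cen t x = z) :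
    bb lev cen dat t x = (dat k z).b (t - z.1) (x - z.2) := by
  unfold bb; rw [h1, h2]

theorem out0 (t x : ℤ) : (famLay lev cen dat).e0 t x = cmpL (lev t (x - 1)) (lev (t + 1) x) := rfl
theorem out1 (t x : ℤ) : (famLay lev cen dat).e1 t x = cmpL (lev (t + 1) x) (lev t x) := rfl
theorem in0 (t x : ℤ) : (famLay lev cen dat).e0 (t - 1) x =
    cmpL (lev (t - 1) (x - 1)) (lev t x) := by
  have e : t - 1 + 1 = t := by omega
  rw [out0, e]
theorem in1 (t x : ℤ) : (famLay lev cen dat).e1 (t - 1) (x - 1) =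
    cmpL (lev t (x - 1)) (lev (t - 1) (x - 1)) := by
  have e : t - 1 + 1 = t := by omega
  rw [out1, e]

theorem lout0 (t x : ℤ) : (famLay lev cen dat).l0 t x = true ↔
    lev t (x - 1) = lev (t + 1) x ∧
      bb lev cen dat (t + 1) x = bb lev cen dat t (x - 1) + 1 := by
  unfold famLay bb; exact decide_eq_true_iff
theorem lout1 (t x : ℤ) : (famLay lev cen dat).l1 t x = true ↔
    lev (t + 1) x = lev t x ∧ bb lev cen dat t x = bb lev cen dat (t + 1) x + 1 := by
  unfold famLay bb; exact decide_eq_true_iff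
theorem lin0 (t x : ℤ) : (famLay lev cen dat).l0 (t - 1) x = true ↔
    lev (t - 1) (x - 1) = lev t x ∧
      bb lev cen dat t x = bb lev cen dat (t - 1) (x - 1) + 1 := by
  have e : t - 1 + 1 = t := by omega
  rw [lout0, e]
theorem lin1 (t x : ℤ) : (famLay lev cen dat).l1 (t - 1) (x - 1) = true ↔
    lev t (x - 1) = lev (t - 1) (x - 1) ∧
      bb lev cen dat (t - 1) (x - 1) = bb lev cen dat t (x - 1) + 1 := by
  have e : t - 1 + 1 = t := by omega
  rw [lout1, e]

theorem p_iff {k : ℕ} {z : ℤ × ℤ} {t x : ℤ} (h1 : lev t (x - 1) = k) (h2 : cen t (x - 1) = z) :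
    (famLay lev cen dat).p t x = true ↔ (dat k z).I.yt (t - z.1) ≤ (dat k z).I.xt (t - z.1) := by
  rw [← h1, ← h2]
  unfold famLay; exact decide_eq_true_iff

theorem q_eq {k : ℕ} {z : ℤ × ℤ} {t x : ℤ} (h1 : lev t (x - 1) = k) (h2 : cen t (x - 1) = z) :
    (famLay lev cen dat).q t x = (dat k z).q (t - z.1) := by
  rw [← h1, ← h2]; rfl

variable (H : Hyp C lev cen dat)

include H

theorem q_lt (t x : ℤ) : (famLay lev cen dat).q t x < 512 := by
  rw [q_eq rfl rfl]
  exact (H.rt _ _ (H.cenC t (x - 1))).qlt _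

/-- the next vertex of an upper wall -/
theorem nextU {k : ℕ} {z : ℤ × ℤ} (hz : z ∈ C k) {t y : ℤ} (h0 : (dat k z).I.t0 < t - z.1)
    (h1 : t - z.1 < (dat k z).I.t1) (hy : y - z.2 = (dat k z).I.u (t - z.1 + 1))
    (hU : (famLay lev cen dat).U (t + 1) y) :
    t - z.1 + 1 < (dat k z).I.t1 ∧ lev (t + 1) (y - 1) = k ∧ cen (t + 1) (y - 1) = z := by
  have ho := H.ok k z hz
  have e1 : t + 1 - z.1 = t - z.1 + 1 := by ring
  have hw : WV dat k z (t + 1) y := by
    refine ⟨by omega, by omega, Or.inl ?_⟩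
    rw [e1]; exact hy
  rcases lt_or_eq_of_le (show t - z.1 + 1 ≤ (dat k z).I.t1 by omega) with h2 | h2
  · refine ⟨h2, ?_⟩
    have hin : InP dat k z (t + 1) (y - 1) := by
      have l := ho.lt (t - z.1 + 1) (by omega) h2
      refine ⟨by omega, by omega, ?_, ?_⟩
      · rw [e1]; omega
      · rw [e1]; omega
    exact lev_eq H hz hin (K H hz hw (Four.b _ _))
  · exfalso
    have hlong := ho.long
    have e2 : t - z.1 = (dat k z).I.t1 - 1 := by omega
    have eu := ho.ut1'
    have ed := ho.dt1'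
    have eu1 := ho.ut1
    rw [h2] at hy
    have hl : InP dat k z t (y - 1) := by
      refine ⟨h0, h1, ?_, ?_⟩
      · rw [e2, ed]; omega
      · rw [e2, eu]; omega
    have ell : t + 1 - 1 = t := by omega
    have fl : Four (t + 1) y t (y - 1) := by
      have := Four.l (t + 1) y
      rwa [ell] at this
    obtain ⟨hlev, -⟩ := lev_eq H hz hl (K H hz hw fl)
    have hout : ∀ {t' x' : ℤ}, Four (t + 1) y t' x' → t' = t + 1 → k < lev t' x' := by
      intro t' x' hf ht
      rcases eq_or_lt_of_le (K H hz hw hf) with h3 | h3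
      · exfalso
        have h4 := (cen_eq H hz hl h3.symm (four_dd hf fl)).2
        have h5 := h4.2.1
        omega
      · exact h3
    have ha : k < lev (t + 1) y := hout (Four.a _ _) rfl
    have hb : k < lev (t + 1) (y - 1) := hout (Four.b _ _) rfl
    have g0 := in0 (lev := lev) (cen := cen) (dat := dat) (t + 1) y
    have g1 := in1 (lev := lev) (cen := cen) (dat := dat) (t + 1) y
    rw [ell, hlev, cmp_lt ha] at g0
    rw [ell, hlev, cmp_gt hb] at g1
    obtain ⟨h3, -⟩ := hU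
    rw [ell, g0, g1] at h3
    rcases h3 with ⟨-, h3⟩ | ⟨h3, -⟩
    · exact absurd h3 (by decide)
    · exact absurd h3 (by decide)

theorem loc_at (t x : ℤ) : (famLay lev cen dat).Loc 512 t x := by
  have hq := q_lt H t x
  rcases struct H t x with ⟨k, z, hz, hall⟩ | ⟨k, z, k', z', hkk, hz, hz', hw, hex, hexn, hcell⟩
  · -- all four cells in one island
    obtain ⟨ll, cl⟩ := hall _ _ (Four.l t x)
    obtain ⟨lb, cb⟩ := hall _ _ (Four.b t x)
    obtain ⟨la, ca⟩ := hall _ _ (Four.a t x)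
    obtain ⟨lr, cr⟩ := hall _ _ (Four.r t x)
    have i0 : (famLay lev cen dat).e0 (t - 1) x = .n := by rw [in0, ll, la, cmp_eq]
    have i1 : (famLay lev cen dat).e1 (t - 1) (x - 1) = .n := by rw [in1, lb, ll, cmp_eq]
    have o0 : (famLay lev cen dat).e0 t x = .n := by rw [out0, lb, lr, cmp_eq]
    have o1 : (famLay lev cen dat).e1 t x = .n := by rw [out1, lr, la, cmp_eq]
    refine loc_N ⟨i0, i1, o0, o1⟩ ?_ hq ?_
    · have hr := H.rt k z hz
      have e1 : t - z.1 - 1 + 1 = t - z.1 := by omega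
      have a1 := hr.e_lo (t - z.1) (x - z.2)
      have a2 := hr.n_lo (t - z.1) (x - z.2)
      have a3 := hr.ne_hi (t - z.1) (x - z.2)
      have a4 := hr.e_lo (t - z.1 - 1) (x - z.2)
      have a5 := hr.n_lo (t - z.1 - 1) (x - z.2 - 1)
      rw [e1] at a4 a5
      have b1 : bb lev cen dat (t - 1) (x - 1) = (dat k z).b (t - z.1 - 1) (x - z.2 - 1) := by
        rw [bb_eq ll cl]; congr 1 <;> ring
      have b2 : bb lev cen dat t (x - 1) = (dat k z).b (t - z.1) (x - z.2 - 1) := by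
        rw [bb_eq lb cb]; congr 1; ring
      have b3 : bb lev cen dat t x = (dat k z).b (t - z.1) (x - z.2) := bb_eq la ca
      have b4 : bb lev cen dat (t + 1) x = (dat k z).b (t - z.1 + 1) (x - z.2) := by
        rw [bb_eq lr cr]; congr 1; ring
      have g1 := lin0 (lev := lev) (cen := cen) (dat := dat) t x
      have g2 := lin1 (lev := lev) (cen := cen) (dat := dat) t x
      have g3 := lout0 (lev := lev) (cen := cen) (dat := dat) t x
      have g4 := lout1 (lev := lev) (cen := cen) (dat := dat) t x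
      by_cases hEq : bb lev cen dat t x = bb lev cen dat t (x - 1)
      · left
        refine ⟨?_, ?_, ?_, ?_⟩
        · rw [Bool.eq_false_iff, Ne, g1]; rintro ⟨-, h⟩; omega
        · rw [Bool.eq_false_iff, Ne, g2]; rintro ⟨-, h⟩; omega
        · rw [Bool.eq_false_iff, Ne, g3]; rintro ⟨-, h⟩; omega
        · rw [Bool.eq_false_iff, Ne, g4]; rintro ⟨-, h⟩; omega
      · right
        refine ⟨?_, ?_⟩
        · by_cases hL : bb lev cen dat (t - 1) (x - 1) = bb lev cen dat t (x - 1)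
          · left
            refine ⟨g1.2 ⟨by rw [ll, la], by omega⟩, ?_⟩
            rw [Bool.eq_false_iff, Ne, g2]; rintro ⟨-, h⟩; omega
          · right
            refine ⟨?_, g2.2 ⟨by rw [ll, lb], by omega⟩⟩
            rw [Bool.eq_false_iff, Ne, g1]; rintro ⟨-, h⟩; omega
        · by_cases hL : bb lev cen dat (t + 1) x = bb lev cen dat t (x - 1)
          · right
            refine ⟨?_, g4.2 ⟨by rw [lr, la], by omega⟩⟩
            rw [Bool.eq_false_iff, Ne, g3]; rintro ⟨-, h⟩; omega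
          · left
            refine ⟨g3.2 ⟨by rw [lb, lr], by omega⟩, ?_⟩
            rw [Bool.eq_false_iff, Ne, g4]; rintro ⟨-, h⟩; omega
    · rintro (h | h | h)
      · have := h.2.2.1; rw [o0] at this; exact absurd this (by decide)
      · have := h.1; rw [i0] at this; exact absurd this (by decide)
      · rcases h.2 with ⟨h, -⟩ | ⟨-, h⟩
        · rw [o0] at h; exact absurd h (by decide)
        · rw [o1] at h; exact absurd h (by decide)
  · -- a wall vertex of an island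
    have ho := H.ok k z hz
    have hr := H.rt k z hz
    obtain ⟨tm, xm, hm, hin⟩ := hex
    have hIn : ∀ {t' x' : ℤ}, Four t x t' x' → InP dat k z t' x' →
        lev t' x' = k ∧ cen t' x' = z := by
      intro t' x' hf hi
      rcases hcell t' x' hf with h | h
      · exact h.2
      · exact absurd hi h.1
    have hOut : ∀ {t' x' : ℤ}, Four t x t' x' → ¬ InP dat k z t' x' →
        lev t' x' = k' ∧ cen t' x' = z' := by
      intro t' x' hf hi
      rcases hcell t' x' hf with h | h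
      · exact absurd h.1 hi
      · exact h.2
    have hbo : ∀ {t1 x1 t2 x2 : ℤ}, Four t x t1 x1 → Four t x t2 x2 → ¬ InP dat k z t1 x1 →
        ¬ InP dat k z t2 x2 → bb lev cen dat t1 x1 = bb lev cen dat t2 x2 := by
      intro t1 x1 t2 x2 f1 f2 n1 n2
      obtain ⟨l1, c1⟩ := hOut f1 n1
      obtain ⟨l2, c2⟩ := hOut f2 n2
      rw [bb_eq l1 c1, bb_eq l2 c2]
      have hi1 : InP dat k' z' t1 x1 := by
        have := inP_self H t1 x1
        rwa [l1, c1] at this
      exact hconst H hkk hz hz' hw hm hin f1 f2 hi1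
    have e1 : t - z.1 - 1 = t - 1 - z.1 := by ring
    have e2 : t - z.1 + 1 = t + 1 - z.1 := by ring
    have e3 : x - z.2 - 1 = x - 1 - z.2 := by ring
    have fL := Four.l t x
    have fB := Four.b t x
    have fA := Four.a t x
    have fR := Four.r t x
    have g1 := lin0 (lev := lev) (cen := cen) (dat := dat) t x
    have g2 := lin1 (lev := lev) (cen := cen) (dat := dat) t x
    have g3 := lout0 (lev := lev) (cen := cen) (dat := dat) t x
    have g4 := lout1 (lev := lev) (cen := cen) (dat := dat) t x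
    have hpat := pattern ho (t - z.1) (x - z.2)
    rw [e1, e2, e3] at hpat
    rcases hpat with h | h | h | h | h | h
    · -- all in
      exfalso
      obtain ⟨tn, xn, hn, hnin⟩ := hexn
      rcases hn with ⟨rfl, rfl⟩ | ⟨rfl, rfl⟩ | ⟨rfl, rfl⟩ | ⟨rfl, rfl⟩
      · exact hnin h.1
      · exact hnin h.2.1
      · exact hnin h.2.2.1
      · exact hnin h.2.2.2
    · -- none in
      exfalso
      rcases hm with ⟨rfl, rfl⟩ | ⟨rfl, rfl⟩ | ⟨rfl, rfl⟩ | ⟨rfl, rfl⟩
      · exact h.1 hin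
      · exact h.2.1 hin
      · exact h.2.2.1 hin
      · exact h.2.2.2 hin
    · -- start vertex
      obtain ⟨-, -, nL, nB, nA, iR⟩ := h
      obtain ⟨lL, -⟩ := hOut fL nL
      obtain ⟨lB, -⟩ := hOut fB nB
      obtain ⟨lA, -⟩ := hOut fA nA
      obtain ⟨lR, -⟩ := hIn fR iR
      have bLA := hbo fL fA nL nA
      have bLB := hbo fL fB nL nB
      refine loc_W (Or.inl ⟨?_, ?_, ?_, ?_⟩) ⟨?_, ?_, ?_, ?_⟩ hq
      · rw [in0, lL, lA, cmp_eq]
      · rw [in1, lL, lB, cmp_eq]
      · rw [out0, lB, lR, cmp_gt hkk]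
      · rw [out1, lR, lA, cmp_lt hkk]
      · rw [Bool.eq_false_iff, Ne, g1]; rintro ⟨-, h⟩; omega
      · rw [Bool.eq_false_iff, Ne, g2]; rintro ⟨-, h⟩; omega
      · rw [Bool.eq_false_iff, Ne, g3]; rintro ⟨h, -⟩; omega
      · rw [Bool.eq_false_iff, Ne, g4]; rintro ⟨h, -⟩; omega
    · -- end vertex
      obtain ⟨-, -, iL, nB, nA, nR⟩ := h
      obtain ⟨lL, -⟩ := hIn fL iL
      obtain ⟨lB, -⟩ := hOut fB nB
      obtain ⟨lA, -⟩ := hOut fA nA
      obtain ⟨lR, -⟩ := hOut fR nR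
      have bRA := hbo fR fA nR nA
      have bRB := hbo fR fB nR nB
      refine loc_W (Or.inr (Or.inl ⟨?_, ?_, ?_, ?_⟩)) ⟨?_, ?_, ?_, ?_⟩ hq
      · rw [in0, lL, lA, cmp_lt hkk]
      · rw [in1, lL, lB, cmp_gt hkk]
      · rw [out0, lB, lR, cmp_eq]
      · rw [out1, lR, lA, cmp_eq]
      · rw [Bool.eq_false_iff, Ne, g1]; rintro ⟨h, -⟩; omega
      · rw [Bool.eq_false_iff, Ne, g2]; rintro ⟨h, -⟩; omega
      · rw [Bool.eq_false_iff, Ne, g3]; rintro ⟨-, h⟩; omega
      · rw [Bool.eq_false_iff, Ne, g4]; rintro ⟨-, h⟩; omega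
    · -- upper wall
      obtain ⟨hs0, hs1, hy, iB, nA, hL, hR⟩ := h
      rw [← e1] at hL
      rw [← e2] at hR
      rw [e1] at hL
      rw [e2] at hR
      have iL : InP dat k z (t - 1) (x - 1) ↔ (dat k z).I.u (t - 1 - z.1) = (dat k z).I.u (t - z.1) :=
        hL
      have iR : InP dat k z (t + 1) x ↔
          (dat k z).I.u (t + 1 - z.1) = (dat k z).I.u (t - z.1) + 1 := hR
      have us0 := ho.ustep (t - 1 - z.1) (by omega) (by omega)
      have us1 := ho.ustep (t - z.1) (by omega) hs1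
      rw [← e1, show t - z.1 - 1 + 1 = t - z.1 by omega, e1] at us0
      rw [e2] at us1
      obtain ⟨lB, cB⟩ := hIn fB iB
      obtain ⟨lA, cA⟩ := hOut fA nA
      -- heights
      have hB : bb lev cen dat t (x - 1) = (dat k z).I.B (t - z.1) := by
        rw [bb_eq lB cB, ← hr.up _ hs0 hs1, ← hy]
        congr 1; ring
      have hbL : InP dat k z (t - 1) (x - 1) →
          bb lev cen dat (t - 1) (x - 1) = (dat k z).I.B (t - 1 - z.1) := by
        intro hi
        obtain ⟨lL, cL⟩ := hIn fL hi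
        rw [bb_eq lL cL, ← hr.up _ hi.1 hi.2.1, iL.1 hi, ← hy]
        congr 1; ring
      have hbR : InP dat k z (t + 1) x →
          bb lev cen dat (t + 1) x = (dat k z).I.B (t + 1 - z.1) := by
        intro hi
        obtain ⟨lR, cR⟩ := hIn fR hi
        rw [bb_eq lR cR, ← hr.up _ hi.1 hi.2.1, iR.1 hi, ← hy]
        congr 1; ring
      have hp := p_iff (dat := dat) lB cB
      have hqq := q_eq (dat := dat) lB cB
      -- events
      have hE1 : (famLay lev cen dat).l1 (t - 1) (x - 1) = true ↔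
          ((dat k z).I.u (t - 1 - z.1) = (dat k z).I.u (t - z.1) ∧
            (dat k z).I.B (t - 1 - z.1) = (dat k z).I.B (t - z.1) + 1) := by
        rw [g2]
        constructor
        · rintro ⟨h1, h2⟩
          have hi : InP dat k z (t - 1) (x - 1) := by
            by_contra hn
            have := (hOut fL hn).1
            omega
          rw [hbL hi, hB] at h2
          exact ⟨iL.1 hi, h2⟩
        · rintro ⟨h1, h2⟩
          have hi := iL.2 h1
          refine ⟨by rw [lB, (hIn fL hi).1], ?_⟩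
          rw [hbL hi, hB]; exact h2
      have hE0 : (famLay lev cen dat).l0 t x = true ↔
          ((dat k z).I.u (t + 1 - z.1) = (dat k z).I.u (t - z.1) + 1 ∧
            (dat k z).I.B (t + 1 - z.1) = (dat k z).I.B (t - z.1) + 1) := by
        rw [g3]
        constructor
        · rintro ⟨h1, h2⟩
          have hi : InP dat k z (t + 1) x := by
            by_contra hn
            have := (hOut fR hn).1
            omega
          rw [hbR hi, hB] at h2
          exact ⟨iR.1 hi, h2⟩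
        · rintro ⟨h1, h2⟩
          have hi := iR.2 h1
          refine ⟨by rw [lB, (hIn fR hi).1], ?_⟩
          rw [hbR hi, hB]; exact h2
      have hEv : (famLay lev cen dat).Ev t x ↔ (dat k z).I.Ev (t - z.1) := by
        unfold Lay.Ev Lens.Ev
        rw [hE1, hE0, e1, e2]
      -- the next vertex
      have hNx : ∀ y : ℤ, y - z.2 = (dat k z).I.u (t + 1 - z.1) →
          (famLay lev cen dat).U (t + 1) y → (famLay lev cen dat).Nx t x y := by
        intro y hyy hUn
        rw [← e2] at hyy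
        obtain ⟨h3, h4, h5⟩ := nextU H hz hs0 hs1 hyy hUn
        have hp' := p_iff (dat := dat) h4 h5
        have hq' := q_eq (dat := dat) h4 h5
        refine ⟨?_, ?_, ?_⟩
        · rw [hp, hp']
          unfold Lens.xt Lens.yt
          intro h6
          omega
        · rw [hEv, hq', ← e2]
          exact hr.qev _ hs0 h3
        · rw [hEv, hq', hqq, ← e2]
          exact hr.qnev _ hs0 h3
      refine loc_U ⟨?_, ?_⟩ ?_ ?_ ?_ ?_ ?_ ?_ hq
      · by_cases hi : InP dat k z (t - 1) (x - 1)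
        · left
          rw [in0, in1, (hIn fL hi).1, lA, lB, cmp_lt hkk, cmp_eq]
          exact ⟨rfl, rfl⟩
        · right
          rw [in0, in1, (hOut fL hi).1, lA, lB, cmp_lt hkk, cmp_eq]
          exact ⟨rfl, rfl⟩
      · by_cases hi : InP dat k z (t + 1) x
        · right
          rw [out0, out1, (hIn fR hi).1, lA, lB, cmp_lt hkk, cmp_eq]
          exact ⟨rfl, rfl⟩
        · left
          rw [out0, out1, (hOut fR hi).1, lA, lB, cmp_lt hkk, cmp_eq]
          exact ⟨rfl, rfl⟩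
      · rw [Bool.eq_false_iff, Ne, g1]
        rintro ⟨h1, h2⟩
        by_cases hi : InP dat k z (t - 1) (x - 1)
        · have := (hIn fL hi).1; omega
        · have := hbo fL fA hi nA; omega
      · rw [Bool.eq_false_iff, Ne, g4]
        rintro ⟨h1, h2⟩
        by_cases hi : InP dat k z (t + 1) x
        · have := (hIn fR hi).1; omega
        · have := hbo fR fA hi nA; omega
      · intro hl
        obtain ⟨h1, h2⟩ := hE1.1 hl
        refine ⟨?_, ?_⟩
        · rw [in0, (hIn fL (iL.2 h1)).1, lA, cmp_lt hkk]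
        · rw [hp]
          unfold Lens.B Lens.xt Lens.yt at h2
          unfold Lens.xt Lens.yt
          omega
      · intro hl
        obtain ⟨h1, h2⟩ := hE0.1 hl
        refine ⟨?_, ?_⟩
        · rw [out1, (hIn fR (iR.2 h1)).1, lA, cmp_lt hkk]
        · rw [Bool.eq_false_iff, Ne, hp]
          unfold Lens.B Lens.xt Lens.yt at h2
          unfold Lens.xt Lens.yt
          omega
      · intro hl hU'
        refine hNx x ?_ hU'
        have : ¬ InP dat k z (t + 1) x := by
          intro hi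
          rw [out0, lB, (hIn fR hi).1, cmp_eq] at hl
          exact absurd hl (by decide)
        rw [iR] at this
        omega
      · intro hl hU'
        refine hNx (x + 1) ?_ hU'
        have : InP dat k z (t + 1) x := by
          by_contra hi
          rw [out1, lA, (hOut fR hi).1, cmp_eq] at hl
          exact absurd hl (by decide)
        rw [iR] at this
        omega
    · -- lower wall
      obtain ⟨hs0, hs1, hy, nB, iA, hL, hR⟩ := h
      have iL : InP dat k z (t - 1) (x - 1) ↔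
          (dat k z).I.d (t - 1 - z.1) = (dat k z).I.d (t - z.1) - 1 := hL
      have iR : InP dat k z (t + 1) x ↔
          (dat k z).I.d (t + 1 - z.1) = (dat k z).I.d (t - z.1) := hR
      obtain ⟨lB, cB⟩ := hOut fB nB
      obtain ⟨lA, cA⟩ := hIn fA iA
      have hA : bb lev cen dat t x = 0 := by
        rw [bb_eq lA cA, hy]; exact hr.low _ hs0 hs1
      have hbL : InP dat k z (t - 1) (x - 1) → bb lev cen dat (t - 1) (x - 1) = 0 := by
        intro hi
        obtain ⟨lL, cL⟩ := hIn fL hi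
        rw [bb_eq lL cL, ← hr.low _ hi.1 hi.2.1, iL.1 hi, ← hy]
        congr 1; ring
      have hbR : InP dat k z (t + 1) x → bb lev cen dat (t + 1) x = 0 := by
        intro hi
        obtain ⟨lR, cR⟩ := hIn fR hi
        rw [bb_eq lR cR, ← hr.low _ hi.1 hi.2.1, iR.1 hi, ← hy]
      refine loc_W (Or.inr (Or.inr ⟨?_, ?_⟩)) ⟨?_, ?_, ?_, ?_⟩ hq
      · by_cases hi : InP dat k z (t - 1) (x - 1)
        · right
          rw [in0, in1, (hIn fL hi).1, lA, lB, cmp_gt hkk, cmp_eq]
          exact ⟨rfl, rfl⟩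
        · left
          rw [in0, in1, (hOut fL hi).1, lA, lB, cmp_gt hkk, cmp_eq]
          exact ⟨rfl, rfl⟩
      · by_cases hi : InP dat k z (t + 1) x
        · left
          rw [out0, out1, (hIn fR hi).1, lA, lB, cmp_gt hkk, cmp_eq]
          exact ⟨rfl, rfl⟩
        · right
          rw [out0, out1, (hOut fR hi).1, lA, lB, cmp_gt hkk, cmp_eq]
          exact ⟨rfl, rfl⟩
      · rw [Bool.eq_false_iff, Ne, g1]
        rintro ⟨h1, h2⟩
        by_cases hi : InP dat k z (t - 1) (x - 1)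
        · have := hbL hi; omega
        · have := (hOut fL hi).1; omega
      · rw [Bool.eq_false_iff, Ne, g2]
        rintro ⟨h1, h2⟩
        by_cases hi : InP dat k z (t - 1) (x - 1)
        · have := (hIn fL hi).1; omega
        · have := hbo fL fB hi nB; omega
      · rw [Bool.eq_false_iff, Ne, g3]
        rintro ⟨h1, h2⟩
        by_cases hi : InP dat k z (t + 1) x
        · have := (hIn fR hi).1; omega
        · have := hbo fR fB hi nB; omega
      · rw [Bool.eq_false_iff, Ne, g4]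
        rintro ⟨h1, h2⟩
        by_cases hi : InP dat k z (t + 1) x
        · have := hbR hi; omega
        · have := (hOut fR hi).1; omega

end fam2

theorem main : S_LAB1 := by
  intro C lev cen dat h1 h2 h3 h4
  exact loc_at ⟨h1, fun k z hz => (h2 k z hz).1, fun k z hz => (h2 k z hz).2,
    fun t x => (h3 t x).1, fun t x => (h3 t x).2, h4⟩

end Pool.Agent.W227.BMLab
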